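import Pool.Agent.H332.HT.Defs

/-!
# Chord lemmas of the project HT (statements `S_ch1`, `S_ch2`, `S_ch3` of helper332)
-/

set_option autoImplicit false

namespace Pool.Agent.H719.HT

open Pool.Agent.H332.HT

theorem cramer (a b t : V2) (h : 0 < det a b) :
    t = (det t b / det a b) • a + (det a t / det a b) • b := by
  have h0 : det a b ≠ 0 := h.ne'
  have e1 : t.1 = det t b / det a b * a.1 + det a t / det a b * b.1 := by
    rw [div_mul_eq_mul_div, div_mul_eq_mul_div, ← add_div, eq_div_iff h0]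
    simp only [det]; ring
  have e2 : t.2 = det t b / det a b * a.2 + det a t / det a b * b.2 := by
    rw [div_mul_eq_mul_div, div_mul_eq_mul_div, ← add_div, eq_div_iff h0]
    simp only [det]; ring
  exact Prod.ext e1 e2

theorem mid (h3 : S_KL3) {K : Set V3} (hK : HB K) {q : ℝ → V2} (hq : Par K q) {a t b : ℝ}
    (h1 : a < t) (h2 : t < b) (h4 : b < a + Real.pi) :
    ∃ L M : ℝ, 0 < L ∧ 0 < M ∧ 1 ≤ L + M ∧ q t = L • q a + M • q b := by
  have d1 : 0 < det (q a) (q b) := hq.pos a b (h1.trans h2) h4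
  have d2 : 0 < det (q a) (q t) := hq.pos a t h1 (h2.trans h4)
  have d3 : 0 < det (q t) (q b) := hq.pos t b h2 (by linarith)
  refine ⟨det (q t) (q b) / det (q a) (q b), det (q a) (q t) / det (q a) (q b),
    div_pos d3 d1, div_pos d2 d1, ?_, cramer _ _ _ d1⟩
  rw [← add_div, le_div_iff₀ d1, one_mul]
  have := h3 K hK (q a) (q b) (q t) (hq.mem a) (hq.mem b) (hq.nint t) d1 d2.le d3.le
  linarith

theorem lin (h3 : S_KL3) {K : Set V3} (hK : HB K) {q : ℝ → V2} (hq : Par K q) {a t b : ℝ}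
    (h1 : a < t) (h2 : t < b) (h4 : b < a + Real.pi) (f : V2 →ₗ[ℝ] ℝ)
    (hf : ∀ r ∈ P K, f r ≤ 1) (fa : f (q a) = 1) (fb : f (q b) = 1) :
    f (q t) = 1 ∧ ∃ L M : ℝ, 0 < L ∧ 0 < M ∧ L + M = 1 ∧ q t = L • q a + M • q b := by
  obtain ⟨L, M, hL, hM, hLM, e⟩ := mid h3 hK hq h1 h2 h4
  have e1 : f (q t) = L + M := by
    rw [e, map_add, map_smul, map_smul, fa, fb, smul_eq_mul, smul_eq_mul, mul_one, mul_one]
  have e2 := hf (q t) (hq.mem t)
  exact ⟨by linarith, L, M, hL, hM, by linarith, e⟩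

theorem supp2 (hP : S_P) (hs : S_supp) {K : Set V3} (hK : HB K) {p r : V2} (hp : p ∈ P K)
    (hr : r ∈ P K) (h : (1 / 2 : ℝ) • (p + r) ∉ IP K) :
    ∃ f : V2 →ₗ[ℝ] ℝ, f p = 1 ∧ f r = 1 ∧ (∀ x ∈ P K, f x ≤ 1) ∧ (∀ x ∈ IP K, f x < 1) := by
  have hc := (hP K hK).2.1
  have hm : (1 / 2 : ℝ) • (p + r) ∈ P K := by
    rw [smul_add]
    exact hc hp hr (by norm_num) (by norm_num) (by norm_num)
  obtain ⟨f, f1, f2, f3⟩ := hs K hK _ hm h
  have e1 : f ((1 / 2 : ℝ) • (p + r)) = (f p + f r) / 2 := by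
    rw [map_smul, map_add, smul_eq_mul]; ring
  rw [e1] at f1
  have e2 := f2 p hp
  have e3 := f2 r hr
  exact ⟨f, by linarith, by linarith, f2, f3⟩

theorem ch1 (hP : S_P) (hs : S_supp) (h3 : S_KL3) : S_ch1 := by
  intro K hK q hq a₀ a b hext h1 h2 h4
  by_contra hc
  obtain ⟨f, fa, fb, f2, -⟩ := supp2 hP hs hK (hq.mem a) (hq.mem b) hc
  obtain ⟨-, L, M, hL, hM, hLM, e⟩ := lin h3 hK hq h1 h2 h4 f f2 fa fb
  have hseg : q a₀ ∈ openSegment ℝ (q a) (q b) := ⟨L, M, hL, hM, hLM, e.symm⟩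
  have heq : q a = q a₀ := hext.2 (hq.mem a) (hq.mem b) hseg
  have hpos := hq.pos a a₀ h1 (h2.trans h4)
  rw [heq] at hpos
  simp only [det] at hpos
  linarith

theorem ch2 (hP : S_P) (hs : S_supp) (h3 : S_KL3) : S_ch2 := by
  intro K hK q hq a b t
  have hhalf : ∀ (f : V2 →ₗ[ℝ] ℝ) (x y : V2), f ((1 / 2 : ℝ) • (x + y)) = (f x + f y) / 2 := by
    intro f x y
    rw [map_smul, map_add, smul_eq_mul]; ring
  refine ⟨fun h1 h2 h4 hin => ?_, fun h1 h2 h4 hin => ?_⟩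
  · by_contra hc
    rw [sub_eq_add_neg, ← hq.anti] at hc hin
    obtain ⟨f, fb, fa, f2, f5⟩ := supp2 hP hs hK (hq.mem b) (hq.mem (a + Real.pi)) hc
    have ft : f (q t) = 1 := by
      rcases h2.eq_or_lt with h | h
      · rw [← h]; exact fb
      · exact (lin h3 hK hq h h4 (by linarith) f f2 fb fa).1
    have := f5 _ hin
    rw [hhalf, ft, fa] at this
    linarith
  · by_contra hc
    obtain ⟨f, fb, fa, f2, f5⟩ := supp2 hP hs hK (hq.mem b) (hq.mem a) hc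
    have ft : f (q t) = 1 := by
      rcases h2.eq_or_lt with h | h
      · rw [h]; exact fb
      · exact (lin h3 hK hq h1 h h4 f f2 fa fb).1
    have := f5 _ hin
    rw [hhalf, ft, fa] at this
    linarith

theorem ch3 (hP : S_P) (hs : S_supp) (h3 : S_KL3) : S_ch3 := by
  intro K hK q hq a w c h1 h2 h4 hout
  by_contra hc
  rw [sub_eq_add_neg, ← hq.anti] at hout
  obtain ⟨f, fw, fa, f2, -⟩ := supp2 hP hs hK (hq.mem w) (hq.mem (a + Real.pi)) hout
  obtain ⟨g, gc, ga, g2, -⟩ := supp2 hP hs hK (hq.mem c) (hq.mem a) hc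
  obtain ⟨-, L, M, hL, hM, hLM, e⟩ := lin h3 hK hq h1 h2 h4 g g2 ga gc
  have fa' : f (q a) = -1 := by
    rw [hq.anti, map_neg] at fa
    linarith
  have e1 : f (q w) = -L + M * f (q c) := by
    rw [e, map_add, map_smul, map_smul, fa', smul_eq_mul, smul_eq_mul]; ring
  have e2 := f2 (q c) (hq.mem c)
  have e3 : M * f (q c) ≤ M * 1 := mul_le_mul_of_nonneg_left e2 hM.le
  linarith

end Pool.Agent.H719.HT
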